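import Mathlib

set_option autoImplicit false

namespace Pool.Agent.H.MP_3bbc5b_al
open Polynomial

variable {K : Type} [Field K]

/-- The operator `u ↦ π u' + κ u`. -/
noncomputable def E (π κ : K[X]) : K[X] →ₗ[K] K[X] :=
  LinearMap.mulLeft K π ∘ₗ derivative + LinearMap.mulLeft K κ

theorem E_apply (π κ u : K[X]) : E π κ u = π * derivative u + κ * u := rfl

/-- The top degree condition. -/
structure Top (π κ : K[X]) (δ : ℕ) : Prop where
  h1 : π.natDegree ≤ δ + 1
  h2 : κ.natDegree ≤ δ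
  h3 : ∀ k : ℕ, k * π.coeff (δ + 1) + κ.coeff δ ≠ 0

theorem le_deg (π κ : K[X]) {δ n : ℕ} (h1 : π.natDegree ≤ δ + 1) (h2 : κ.natDegree ≤ δ) (u : K[X])
    (hu : u.natDegree ≤ n) : (E π κ u).natDegree ≤ n + δ ∧
      (E π κ u).coeff (n + δ) = u.coeff n * (n * π.coeff (δ + 1) + κ.coeff δ) := by
  have e2 : (κ * u).coeff (n + δ) = κ.coeff δ * u.coeff n := by
    rw [add_comm, coeff_mul_add_eq_of_natDegree_le h2 hu]
  have d2 : (κ * u).natDegree ≤ n + δ := natDegree_mul_le.trans (by omega)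
  rw [E_apply]
  cases n with
  | zero =>
    rw [derivative_of_natDegree_zero (Nat.le_zero.1 hu), mul_zero, zero_add]
    exact ⟨d2, by rw [e2]; simp [mul_comm]⟩
  | succ n =>
    have hd : (derivative u).natDegree ≤ n := (natDegree_derivative_le u).trans (by omega)
    refine ⟨(natDegree_add_le _ _).trans (max_le (natDegree_mul_le.trans (by omega)) d2), ?_⟩
    rw [coeff_add, e2, show n + 1 + δ = δ + 1 + n by omega, coeff_mul_add_eq_of_natDegree_le h1 hd,
      coeff_derivative]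
    push_cast; ring

theorem Top.deg {π κ : K[X]} {δ : ℕ} (h : Top π κ δ) {u : K[X]} (hu : u ≠ 0) :
    E π κ u ≠ 0 ∧ (E π κ u).natDegree = u.natDegree + δ := by
  obtain ⟨h1, h2⟩ := le_deg π κ h.h1 h.h2 u le_rfl
  have : (E π κ u).coeff (u.natDegree + δ) ≠ 0 := by
    rw [h2]; exact mul_ne_zero (leadingCoeff_ne_zero.2 hu) (h.h3 _)
  exact ⟨fun e => this (by rw [e, coeff_zero]), natDegree_eq_of_le_of_coeff_ne_zero h1 this⟩

theorem Top.red {π κ : K[X]} {δ : ℕ} (h : Top π κ δ) (p : K[X]) :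
    ∃ u, p - E π κ u ∈ degreeLT K δ := by
  induction hn : p.natDegree using Nat.strong_induction_on generalizing p with
  | _ n ih =>
  by_cases hp : p ∈ degreeLT K δ
  · exact ⟨0, by simpa using hp⟩
  have h0 : p ≠ 0 := fun e => hp (e ▸ zero_mem _)
  rw [mem_degreeLT, degree_eq_natDegree h0, hn, Nat.cast_lt, not_lt] at hp
  obtain ⟨k, rfl⟩ := Nat.exists_eq_add_of_le' hp
  let v : K[X] := monomial k (p.coeff (k + δ) / (k * π.coeff (δ + 1) + κ.coeff δ))
  obtain ⟨h1, h2⟩ := le_deg π κ h.h1 h.h2 v (natDegree_monomial_le _)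
  rw [coeff_monomial_same, div_mul_cancel₀ _ (h.h3 k)] at h2
  by_cases e : p - E π κ v = 0
  · exact ⟨v, e ▸ zero_mem _⟩
  have h3 : (p - E π κ v).natDegree ≤ k + δ := (natDegree_sub_le _ _).trans (max_le hn.le h1)
  obtain ⟨u, hu⟩ := ih _ (h3.lt_of_ne fun e' => leadingCoeff_ne_zero.2 e (by
    rw [leadingCoeff, e', coeff_sub, h2, sub_self])) _ rfl
  exact ⟨v + u, by rwa [map_add, ← sub_sub]⟩

theorem Top.surj {π κ : K[X]} (h : Top π κ 0) (p : K[X]) : ∃ u, E π κ u = p := by
  obtain ⟨u, hu⟩ := h.red p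
  rw [mem_degreeLT, Nat.cast_zero, Nat.WithBot.lt_zero_iff, degree_eq_bot, sub_eq_zero] at hu
  exact ⟨u, hu.symm⟩

theorem generic {V W : Type} [AddCommGroup V] [Module K V] [AddCommGroup W] [Module K W]
    [Module.Finite K V] [CharZero K] (x y : V →ₗ[K] W) (hx : LinearMap.ker x = ⊥) :
    ∃ m : ℕ, 1 ≤ m ∧ LinearMap.ker (x + (m : K) • y) = ⊥ := by
  obtain ⟨l, hl⟩ := x.exists_leftInverse_of_injective hx
  obtain ⟨_, ⟨m, rfl⟩, hm⟩ := (Set.infinite_range_of_injective
    (f := fun m : ℕ => -((m + 1 : ℕ) : K)⁻¹) fun m n e => by simpa using e).exists_notMem_finite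
      (Module.End.finite_hasEigenvalue (l ∘ₗ y : Module.End K V))
  refine ⟨m + 1, by omega, LinearMap.ker_eq_bot'.2 fun v hv => by_contra fun h0 => hm ?_⟩
  refine Module.End.hasEigenvalue_of_hasEigenvector ⟨Module.End.mem_eigenspace_iff.2 ?_, h0⟩
  have h1 := congrArg l hv
  have h2 : l (x v) = v := LinearMap.congr_fun hl v
  rw [LinearMap.add_apply, map_add, h2, LinearMap.smul_apply, map_smul, map_zero,
    add_eq_zero_iff_eq_neg] at h1
  have h3 : ((m + 1 : ℕ) : K) ≠ 0 := Nat.cast_ne_zero.2 (by omega)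
  conv_rhs => rw [h1, smul_neg, neg_smul, neg_neg, inv_smul_smul₀ h3]
  rfl

theorem dvd_of_loc [IsAlgClosed K] {η θ f v : K[X]} (hf : f ≠ 0)
    (h : ∀ τ, f.IsRoot τ → ∃ η₁, η = (X - C τ) * η₁ ∧ ∀ k : ℕ, k * η₁.eval τ + θ.eval τ ≠ 0)
    (hv : f ∣ E η θ v) : f ∣ v := by
  classical
  by_cases h0 : v = 0
  · simp [h0]
  refine (IsAlgClosed.dvd_iff_roots_le_roots hf h0).2 (Multiset.le_iff_count.2 fun τ => ?_)
  rw [count_roots, count_roots]
  by_contra hlt
  push Not at hlt
  obtain ⟨η₁, rfl, hk⟩ := h τ ((rootMultiplicity_pos hf).1 (by omega))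
  obtain ⟨v₁, e, hv₁⟩ := exists_eq_pow_rootMultiplicity_mul_and_not_dvd v h0 τ
  generalize rootMultiplicity τ v = k at e hlt
  have h1 := ((pow_dvd_pow _ hlt).trans (pow_rootMultiplicity_dvd f τ)).trans hv
  have h2 : E ((X - C τ) * η₁) θ v =
      (X - C τ) ^ k * ((k : K[X]) * η₁ * v₁ + (X - C τ) * η₁ * derivative v₁ + θ * v₁) := by
    rw [E_apply, e]
    cases k with
    | zero => simp
    | succ k => simp [derivative_pow]; ring
  rw [h2, Nat.succ_eq_add_one, pow_succ,
    mul_dvd_mul_iff_left (pow_ne_zero _ (X_sub_C_ne_zero τ)), dvd_iff_isRoot] at h1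
  rw [dvd_iff_isRoot] at hv₁
  refine mul_ne_zero (hk k) hv₁ ?_
  simp at h1
  linear_combination h1

theorem core [IsAlgClosed K] [CharZero K] {η θ f : K[X]} {δ : ℕ} (hf : f ≠ 0) (ht : Top η θ δ)
    (h : ∀ τ, f.IsRoot τ → ∃ η₁, η = (X - C τ) * η₁ ∧ ∀ k : ℕ, k * η₁.eval τ + θ.eval τ ≠ 0)
    (U : Submodule K K[X]) (hU : ∀ u, E η θ u ∈ U) (hm : ∀ m, 1 ≤ m → f ^ m ∈ U) : 1 ∈ U := by
  classical
  by_contra h1
  obtain ⟨e, he⟩ : f ∣ η * derivative f := by
    by_cases h0 : η * derivative f = 0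
    · simp [h0]
    refine (IsAlgClosed.dvd_iff_roots_le_roots hf h0).2 (Multiset.le_iff_count.2 fun τ => ?_)
    rw [count_roots, count_roots]
    by_cases hτ : f.IsRoot τ
    · obtain ⟨η₁, rfl, -⟩ := h τ hτ
      rw [le_rootMultiplicity_iff h0]
      have := (rootMultiplicity_pos hf).2 hτ
      rw [← Nat.sub_add_cancel this, pow_succ', mul_assoc]
      exact mul_dvd_mul_left _ (((pow_dvd_pow _ (rootMultiplicity_sub_one_le_derivative_rootMultiplicity
        f τ)).trans (pow_rootMultiplicity_dvd _ _)).mul_left _)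
    · simp [rootMultiplicity_eq_zero hτ]
  have hE : E η 0 f = f * e := by rw [E_apply, he, zero_mul, add_zero]
  have hed : e.natDegree ≤ δ := by
    by_cases h0 : e = 0
    · simp [h0]
    have := (le_deg η 0 ht.h1 (by simp) f le_rfl).1
    rw [hE, natDegree_mul hf h0] at this
    omega
  have hec : e.coeff δ = f.natDegree * η.coeff (δ + 1) := by
    have := (le_deg η 0 ht.h1 (by simp) f le_rfl).2
    rw [hE, coeff_mul_add_eq_of_natDegree_le le_rfl hed, coeff_zero, add_zero] at this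
    exact mul_left_cancel₀ (leadingCoeff_ne_zero.2 hf) this
  have htm : ∀ m : ℕ, Top η (θ + C (m : K) * e) δ := fun m =>
    ⟨ht.h1, (natDegree_add_le _ _).trans (max_le ht.h2 ((natDegree_C_mul_le _ _).trans hed)),
      fun k => by
        have := ht.h3 (k + m * f.natDegree)
        rw [coeff_add, coeff_C_mul, hec]
        push_cast at this
        exact fun h => this (by linear_combination h)⟩
  have hloc : ∀ (m : ℕ) τ, f.IsRoot τ → ∃ η₁, η = (X - C τ) * η₁ ∧
      ∀ k : ℕ, k * η₁.eval τ + (θ + C (m : K) * e).eval τ ≠ 0 := fun m τ hτ => by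
    obtain ⟨η₁, e1, hk⟩ := h τ hτ
    obtain ⟨f₁, e2, hf₁⟩ := exists_eq_pow_rootMultiplicity_mul_and_not_dvd f hf τ
    obtain ⟨r, hr⟩ := Nat.exists_eq_succ_of_ne_zero ((rootMultiplicity_pos hf).2 hτ).ne'
    rw [hr] at e2
    have e3 : (X - C τ) ^ (r + 1) * (η₁ * (((r : K[X]) + 1) * f₁ + (X - C τ) * derivative f₁) - f₁ * e) =
        0 := by
      rw [e1, e2] at he
      simp [derivative_pow] at he
      linear_combination he
    have e4 := congrArg (eval τ) ((mul_eq_zero.1 e3).resolve_left (pow_ne_zero _ (X_sub_C_ne_zero τ)))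
    rw [dvd_iff_isRoot] at hf₁
    simp at e4
    have e5 : e.eval τ = (r + 1) * η₁.eval τ := mul_left_cancel₀ hf₁ (by linear_combination -e4)
    refine ⟨η₁, e1, fun k h => hk (k + m * (r + 1)) ?_⟩
    simp [e5] at h
    push_cast
    linear_combination h
  have hinj : ∀ (m : ℕ) g v, f ^ m * g = E η θ v → ∃ u, g = E η (θ + C (m : K) * e) u := by
    intro m
    induction m with
    | zero => intro g v h; exact ⟨v, by simpa using h⟩
    | succ m ih =>
      intro g v h
      obtain ⟨u, hu⟩ := ih (f * g) v (by rw [← h]; ring)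
      obtain ⟨w, rfl⟩ := dvd_of_loc hf (hloc m) (hu ▸ dvd_mul_right f g)
      refine ⟨w, mul_left_cancel₀ hf ?_⟩
      rw [hu, E_apply, E_apply, derivative_mul]
      simp only [Nat.cast_succ, map_add, map_one]
      linear_combination w * he
  have key : ∀ N : ℕ, ∃ i : Fin N → ℕ, ∀ u (γ : Fin N → K),
      E η θ u + ∑ l, γ l • f ^ i l = 0 → γ = 0 := by
    intro N
    induction N with
    | zero => exact ⟨Fin.elim0, fun _ _ _ => Subsingleton.elim _ _⟩
    | succ N ih =>
      obtain ⟨i, hi⟩ := ih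
      let S : (Fin N → K) →ₗ[K] K[X] := Fintype.linearCombination K fun l => f ^ i l
      obtain ⟨B, hB⟩ : ∃ B, ∀ γ, (S γ).natDegree ≤ B := ⟨Finset.univ.sup fun l => (f ^ i l).natDegree,
        fun γ => by
          rw [Fintype.linearCombination_apply]
          exact natDegree_sum_le_of_forall_le _ _ fun l hl => (natDegree_smul_le _ _).trans
            (Finset.le_sup (f := fun l => (f ^ i l).natDegree) hl)⟩
      obtain ⟨m, hm1, hk⟩ := generic ((E η θ ∘ₗ (degreeLT K (B + 1)).subtype).coprod S)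
        ((LinearMap.mulLeft K e ∘ₗ (degreeLT K (B + 1)).subtype).coprod 0)
        (LinearMap.ker_eq_bot'.2 fun ⟨u, γ⟩ h => by
          obtain rfl := hi u γ h
          refine Prod.ext (Subtype.ext (by_contra fun h0 => (ht.deg h0).1 ?_)) rfl
          simpa using h)
      refine ⟨Fin.cons 0 fun l => m + i l, fun u γ h => ?_⟩
      simp only [Fin.sum_univ_succ, Fin.cons_zero, Fin.cons_succ, pow_zero] at h
      have h0 : γ 0 = 0 := by_contra fun h0 => h1 ((U.smul_mem_iff h0).1 (by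
        rw [← add_assoc, add_eq_zero_iff_eq_neg, add_comm, ← eq_sub_iff_add_eq] at h
        rw [h]
        exact U.sub_mem (U.neg_mem (U.sum_mem fun l _ => U.smul_mem _ (hm _ (by omega)))) (hU u)))
      obtain ⟨w, hw⟩ := hinj m (-S fun l => γ l.succ) u (by
        rw [h0, zero_smul, zero_add, add_eq_zero_iff_eq_neg] at h
        simp [h, S, Fintype.linearCombination_apply, Finset.mul_sum, pow_add])
      have hw' : w ∈ degreeLT K (B + 1) := by
        by_cases hw0 : w = 0
        · simp [hw0]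
        have := ((htm m).deg hw0).2
        rw [← hw, natDegree_neg] at this
        have := hB fun l => γ l.succ
        rw [mem_degreeLT, degree_eq_natDegree hw0, Nat.cast_lt]
        omega
      have := LinearMap.ker_eq_bot'.1 hk (⟨w, hw'⟩, fun l => γ l.succ) (by
        rw [E_apply] at hw
        simp [E_apply, smul_eq_C_mul]
        simp at hw
        linear_combination -hw)
      ext l
      exact Fin.cases h0 (fun l => congrFun (congrArg Prod.snd this) l) l
  let q := (LinearMap.range (E η θ)).mkQ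
  have : Module.Finite K (K[X] ⧸ LinearMap.range (E η θ)) :=
    Module.Finite.of_surjective (q ∘ₗ (degreeLT K δ).subtype) fun x => by
      obtain ⟨p, rfl⟩ := Submodule.mkQ_surjective _ x
      obtain ⟨u, hu⟩ := ht.red p
      exact ⟨⟨_, hu⟩, (Submodule.Quotient.eq _).2 ⟨-u, by simp⟩⟩
  obtain ⟨i, hi⟩ := key (Module.finrank K (K[X] ⧸ LinearMap.range (E η θ)) + 1)
  have := LinearMap.finrank_le_finrank_of_injective
    (f := q ∘ₗ Fintype.linearCombination K fun l => f ^ i l)
    (LinearMap.ker_eq_bot.1 (LinearMap.ker_eq_bot'.2 fun γ h => by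
      obtain ⟨u, hu⟩ := (Submodule.Quotient.mk_eq_zero _).1 h
      exact hi (-u) γ (by rw [map_neg, hu, neg_add_eq_zero]; rfl)))
  simp at this

theorem main [IsAlgClosed K] [CharZero K] {π κ f : K[X]} {δ : ℕ} (ht : Top π κ (δ + 1))
    (h : ∀ τ, π.IsRoot τ → ∀ k : ℕ, k * π.derivative.eval τ + κ.eval τ ≠ 0)
    (hm : ∀ m, 1 ≤ m → ∃ u, E π κ u = f ^ m) : f = 0 := by
  classical
  by_contra hf
  let s := f.roots.toFinset.filter fun τ => ¬ π.IsRoot τ
  let g : K[X] := ∏ τ ∈ s, (X - C τ)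
  have hg : g.Monic := monic_prod_of_monic _ _ fun _ _ => monic_X_sub_C _
  obtain ⟨u, hu⟩ : 1 ∈ LinearMap.range (E π κ) := by
    refine core (η := π * g) (θ := E π κ g) (δ := g.natDegree + (δ + 1)) hf ⟨natDegree_mul_le.trans
      (by have := ht.h1; omega), (le_deg π κ ht.h1 ht.h2 g le_rfl).1, fun k h => ?_⟩
      (fun τ hτ => ?_) _ (fun u => ⟨g * u, by simp only [E_apply, derivative_mul]; ring⟩) hm
    · rw [(le_deg π κ ht.h1 ht.h2 g le_rfl).2, add_assoc, add_comm g.natDegree,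
        coeff_mul_add_eq_of_natDegree_le ht.h1 le_rfl, hg.coeff_natDegree] at h
      exact ht.h3 (k + g.natDegree) (by push_cast; linear_combination h)
    by_cases hπ : π.IsRoot τ
    · obtain ⟨π₁, e⟩ := dvd_iff_isRoot.2 hπ
      have hg0 : g.eval τ ≠ 0 := by
        rw [eval_prod]
        refine Finset.prod_ne_zero_iff.2 fun σ hσ e => (Finset.mem_filter.1 hσ).2 ?_
        rwa [show σ = τ by simpa [sub_eq_zero, eq_comm] using e]
      refine ⟨π₁ * g, by rw [e, mul_assoc], fun k hk => mul_ne_zero (h τ hπ k) hg0 ?_⟩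
      rw [E_apply] at hk
      rw [e] at hk ⊢
      simp [-mul_eq_zero] at hk ⊢
      linear_combination hk
    · have hs : τ ∈ s := Finset.mem_filter.2 ⟨by simp [hf, hτ.eq_zero], hπ⟩
      have e := (Finset.mul_prod_erase s (fun τ => X - C τ) hs).symm
      have hg0 : (∏ σ ∈ s.erase τ, (X - C σ)).eval τ ≠ 0 := by
        rw [eval_prod]
        refine Finset.prod_ne_zero_iff.2 fun σ hσ e => (Finset.mem_erase.1 hσ).1 ?_
        simpa [sub_eq_zero, eq_comm] using e
      generalize ∏ σ ∈ s.erase τ, (X - C σ) = g₁ at e hg0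
      refine ⟨π * g₁, by rw [show g = _ from e]; ring, fun k hk =>
        mul_ne_zero (mul_ne_zero (Nat.cast_add_one_ne_zero k) hπ) hg0 ?_⟩
      rw [E_apply, show g = _ from e] at hk
      simp at hk
      linear_combination hk
  have h0 : u ≠ 0 := by rintro rfl; simp at hu
  have := (ht.deg h0).2
  rw [hu, natDegree_one] at this
  omega

end Pool.Agent.H.MP_3bbc5b_al
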